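import Pool.Agent.R111.Lights.Poly

/-!
# The path operator and the Lights Out matrix
-/

set_option autoImplicit false

namespace Pool.Agent.R111.Lights

open Polynomial

variable {n : ℕ} {M : Type*} [AddCommGroup M] [Module (ZMod 2) M]

/-- The sum over the neighbours in the path with `n` vertices. -/
def T (n : ℕ) (M : Type*) [AddCommGroup M] [Module (ZMod 2) M] :
    Module.End (ZMod 2) (Fin n → M) where
  toFun u := fun j => ∑ j' : Fin n, if j'.val + 1 = j.val ∨ j.val + 1 = j'.val then u j' else 0
  map_add' u v := by
    ext j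
    simp only [Pi.add_apply, ← Finset.sum_add_distrib]
    apply Finset.sum_congr rfl
    intro j' _
    split_ifs <;> simp
  map_smul' c u := by
    ext j
    simp only [Pi.smul_apply, RingHom.id_apply, Finset.smul_sum]
    apply Finset.sum_congr rfl
    intro j' _
    split_ifs <;> simp

theorem T_apply (u : Fin n → M) (j : Fin n) :
    T n M u j = ∑ j' : Fin n, if j'.val + 1 = j.val ∨ j.val + 1 = j'.val then u j' else 0 := rfl

omit [Module (ZMod 2) M] in
theorem add_self' (x : M) [Module (ZMod 2) M] : x + x = 0 := by
  have : x + x = (2 : ZMod 2) • x := by rw [two_smul]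
  rw [this]
  have h : (2 : ZMod 2) = 0 := by decide
  rw [h, zero_smul]

/-- The value of the path operator on a sequence vanishing at both ends. -/
theorem T_of (U : ℕ → M) (h0 : U 0 = 0) (hn : U (n + 1) = 0) (j : Fin n) :
    T n M (fun j => U (j.val + 1)) j = U j.val + U (j.val + 2) := by
  rw [T_apply]
  have e : ∀ j' : Fin n, (if j'.val + 1 = j.val ∨ j.val + 1 = j'.val then U (j'.val + 1) else 0) =
      (if j'.val + 1 = j.val then U (j'.val + 1) else 0) +
      (if j.val + 1 = j'.val then U (j'.val + 1) else 0) := by
    intro j'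
    by_cases h1 : j'.val + 1 = j.val
    · have h2 : ¬ j.val + 1 = j'.val := by omega
      simp [h1, h2]
    · simp [h1]
  rw [Finset.sum_congr rfl (fun j' _ => e j'), Finset.sum_add_distrib]
  congr 1
  · by_cases hj : j.val = 0
    · rw [hj, h0]
      apply Finset.sum_eq_zero
      intro j' _
      rw [if_neg (by omega)]
    · rw [Finset.sum_eq_single (⟨j.val - 1, by omega⟩ : Fin n)]
      · simp only
        rw [if_pos (by omega)]
        congr 1
        omega
      · intro j' _ hne
        rw [if_neg]
        intro h
        apply hne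
        ext
        simp only
        omega
      · intro h
        exact absurd (Finset.mem_univ _) h
  · by_cases hj : j.val + 1 = n
    · have : j.val + 2 = n + 1 := by omega
      rw [this, hn]
      apply Finset.sum_eq_zero
      intro j' _
      rw [if_neg (by omega)]
    · rw [Finset.sum_eq_single (⟨j.val + 1, by omega⟩ : Fin n)]
      · simp only
        rw [if_pos trivial]
      · intro j' _ hne
        rw [if_neg]
        intro h
        apply hne
        ext
        simp only
        omega
      · intro h
        exact absurd (Finset.mem_univ _) h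

/-- A sequence with a single nonzero entry, at position `k` (counted from one). -/
def S (n k : ℕ) (m : M) : Fin n → M := fun j => if j.val + 1 = k then m else 0

theorem T_S (k : ℕ) (hk : k + 1 ≤ n) (m : M) : T n M (S n (k + 1) m) = S n k m + S n (k + 2) m := by
  ext j
  have h := T_of (n := n) (fun i => if i = k + 1 then m else 0) (by simp) (by
    rw [if_neg (by omega)]) j
  change T n M (S n (k + 1) m) j = _ at h
  rw [h]
  simp only [Pi.add_apply, S]
  rw [add_comm]
  congr 1
  · exact if_congr (by omega) rfl rfl
  · exact if_congr (by omega) rfl rfl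

theorem aeval_S (m : M) (k : ℕ) (hk : k ≤ n + 1) : aeval (T n M) (f k) (S n 1 m) = S n k m := by
  induction k using Nat.twoStepInduction with
  | zero =>
    rw [f_zero, map_zero]
    ext j
    simp [S]
  | one => rw [f_one, map_one]; rfl
  | more k ih1 ih2 =>
    rw [f_add_two, map_add, map_mul, aeval_X, LinearMap.add_apply, Module.End.mul_apply,
      ih2 (by omega), ih1 (by omega), T_S k (by omega)]
    ext j
    simp only [Pi.add_apply]
    have := add_self' (S n k m j)
    rw [add_right_comm, this, zero_add]

theorem aeval_zero (u : Fin n → M) : aeval (T n M) (f (n + 1)) u = 0 := by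
  have h1 : ∀ (k : ℕ) (m : M), k ≤ n → aeval (T n M) (f (n + 1)) (S n k m) = 0 := by
    intro k m hk
    rw [← aeval_S m k (by omega), ← Module.End.mul_apply, ← map_mul, mul_comm, map_mul,
      Module.End.mul_apply, aeval_S m (n + 1) le_rfl]
    have : S n (n + 1) m = 0 := by
      ext j
      simp only [S, Pi.zero_apply]
      rw [if_neg (by omega)]
    rw [this, map_zero]
  have h2 : u = ∑ i : Fin n, S n (i.val + 1) (u i) := by
    ext j
    rw [Finset.sum_apply, Finset.sum_eq_single j]
    · simp [S]
    · intro i _ hne
      simp only [S]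
      rw [if_neg]
      intro h
      apply hne
      ext
      omega
    · intro h
      exact absurd (Finset.mem_univ _) h
  rw [h2, map_sum]
  apply Finset.sum_eq_zero
  intro i _
  exact h1 _ _ (by omega)

/-- A solution of `T u = c u` is determined by its first entry. -/
theorem eq_zero_of_first (c : ZMod 2) (u : Fin n → M) (h : T n M u = c • u)
    (h0 : ∀ hn : 0 < n, u ⟨0, hn⟩ = 0) : u = 0 := by
  have key : ∀ k : ℕ, ∀ j : Fin n, j.val ≤ k → u j = 0 := by
    intro k
    induction k with
    | zero =>
      intro j hj
      have : j = ⟨0, by omega⟩ := by ext; simp only; omega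
      rw [this]
      exact h0 _
    | succ k ih =>
      intro j hj
      rcases Nat.lt_or_ge j.val (k + 1) with hlt | hge
      · exact ih j (by omega)
      have hjk : j.val = k + 1 := by omega
      have hk : k < n := by omega
      have h1 := congrFun h ⟨k, hk⟩
      rw [T_apply, Pi.smul_apply, ih ⟨k, hk⟩ (by simp), smul_zero] at h1
      rw [Finset.sum_eq_single j] at h1
      · simpa [hjk] using h1
      · intro b _ hne
        split_ifs with hb
        · simp only at hb
          rcases hb with hb | hb
          · exact ih b (by omega)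
          · exfalso
            apply hne
            ext
            omega
        · rfl
      · intro h
        exact absurd (Finset.mem_univ _) h
  ext j
  exact key n j (by omega)

/-! ### Two directions -/

/-- The path operator in the second direction. -/
def T2 (n : ℕ) : Module.End (ZMod 2) (Fin n → Fin n → ZMod 2) where
  toFun x := fun i => T n (ZMod 2) (x i)
  map_add' x y := by ext i; simp
  map_smul' c x := by ext i; simp

theorem T2_apply (x : Fin n → Fin n → ZMod 2) (i : Fin n) : T2 n x i = T n (ZMod 2) (x i) := rfl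

/-- The path operator in the first direction. -/
abbrev T1 (n : ℕ) : Module.End (ZMod 2) (Fin n → Fin n → ZMod 2) := T n (Fin n → ZMod 2)

theorem T1_apply (x : Fin n → Fin n → ZMod 2) (i j : Fin n) :
    T1 n x i j = ∑ i' : Fin n, if i'.val + 1 = i.val ∨ i.val + 1 = i'.val then x i' j else 0 := by
  rw [T_apply, Finset.sum_apply]
  apply Finset.sum_congr rfl
  intro i' _
  split_ifs <;> rfl

theorem T_comm (x : Fin n → Fin n → ZMod 2) : T1 n (T2 n x) = T2 n (T1 n x) := by
  ext i j
  rw [T1_apply, T2_apply, T_apply]
  simp only [T2_apply, T_apply, T1_apply]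
  have e1 : ∀ i' : Fin n, (if i'.val + 1 = i.val ∨ i.val + 1 = i'.val then
      ∑ j' : Fin n, (if j'.val + 1 = j.val ∨ j.val + 1 = j'.val then x i' j' else 0) else 0) =
      ∑ j' : Fin n, (if i'.val + 1 = i.val ∨ i.val + 1 = i'.val then
        (if j'.val + 1 = j.val ∨ j.val + 1 = j'.val then x i' j' else 0) else 0) := by
    intro i'
    split_ifs <;> simp
  have e2 : ∀ j' : Fin n, (if j'.val + 1 = j.val ∨ j.val + 1 = j'.val then
      ∑ i' : Fin n, (if i'.val + 1 = i.val ∨ i.val + 1 = i'.val then x i' j' else 0) else 0) =
      ∑ i' : Fin n, (if i'.val + 1 = i.val ∨ i.val + 1 = i'.val then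
        (if j'.val + 1 = j.val ∨ j.val + 1 = j'.val then x i' j' else 0) else 0) := by
    intro j'
    split_ifs <;> simp
  rw [Finset.sum_congr rfl (fun i' _ => e1 i'), Finset.sum_congr rfl (fun j' _ => e2 j'),
    Finset.sum_comm]

theorem aeval_T2 (p : (ZMod 2)[X]) (x : Fin n → Fin n → ZMod 2) (i : Fin n) :
    aeval (T2 n) p x i = aeval (T n (ZMod 2)) p (x i) := by
  induction p using Polynomial.induction_on' with
  | add p q hp hq =>
    rw [map_add, map_add, LinearMap.add_apply, LinearMap.add_apply, Pi.add_apply, hp, hq]
  | monomial k c =>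
    rw [aeval_monomial, aeval_monomial, Module.End.mul_apply, Module.End.mul_apply,
      Module.algebraMap_end_apply, Module.algebraMap_end_apply, Pi.smul_apply]
    congr 1
    induction k generalizing x with
    | zero => simp
    | succ k ih =>
      rw [pow_succ, pow_succ, Module.End.mul_apply, Module.End.mul_apply, ih, T2_apply]

/-- The kernel of the Lights Out operator. -/
def Ker (n : ℕ) (x : Fin n → Fin n → ZMod 2) : Prop := x + T1 n x + T2 n x = 0

theorem ker_T1 {x : Fin n → Fin n → ZMod 2} (h : Ker n x) : T1 n x = (1 + T2 n) x := by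
  unfold Ker at h
  have h1 : T1 n x = -(x + T2 n x) := by
    rw [eq_neg_iff_add_eq_zero, ← h]; abel
  rw [h1, LinearMap.add_apply, Module.End.one_apply]
  have h2 := add_self' (x + T2 n x)
  exact neg_eq_of_add_eq_zero_left h2

theorem aeval_T1 {x : Fin n → Fin n → ZMod 2} (h : Ker n x) (p : (ZMod 2)[X]) :
    aeval (T1 n) p x = aeval (1 + T2 n) p x := by
  have hcomm : ∀ k : ℕ, ∀ y, T1 n (((1 + T2 n) ^ k) y) = ((1 + T2 n) ^ k) (T1 n y) := by
    intro k
    induction k with
    | zero => intro y; simp
    | succ k ih =>
      intro y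
      rw [pow_succ', Module.End.mul_apply, Module.End.mul_apply, LinearMap.add_apply,
        Module.End.one_apply, map_add, T_comm, ih, LinearMap.add_apply, Module.End.one_apply]
  induction p using Polynomial.induction_on' with
  | add p q hp hq =>
    rw [map_add, map_add, LinearMap.add_apply, LinearMap.add_apply, hp, hq]
  | monomial k c =>
    rw [aeval_monomial, aeval_monomial, Module.End.mul_apply, Module.End.mul_apply]
    congr 1
    induction k with
    | zero => simp
    | succ k ih =>
      rw [pow_succ', Module.End.mul_apply, ih, hcomm, ker_T1 h, ← Module.End.mul_apply, ← pow_succ]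

theorem quad {k : ℕ} (hn : n + 1 = 2 * 3 ^ k) {x : Fin n → Fin n → ZMod 2} (h : Ker n x) :
    T2 n (T2 n x) + T2 n x = 0 := by
  obtain ⟨α, β, hab⟩ := bezout k
  have h1 : aeval (T2 n) (f (2 * 3 ^ k)) x = 0 := by
    ext i : 1
    rw [aeval_T2, ← hn, aeval_zero]
    rfl
  have h2 : aeval (T2 n) ((f (2 * 3 ^ k)).comp (X + 1)) x = 0 := by
    have e : aeval (T2 n) ((f (2 * 3 ^ k)).comp (X + 1)) = aeval (1 + T2 n) (f (2 * 3 ^ k)) := by
      rw [aeval_comp, map_add, aeval_X, map_one, add_comm]
    rw [e, ← aeval_T1 h, ← hn]
    exact aeval_zero x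
  have h3 : aeval (T2 n) (X * (X + 1) : (ZMod 2)[X]) x = 0 := by
    rw [← hab, map_add, map_mul, map_mul, LinearMap.add_apply, Module.End.mul_apply,
      Module.End.mul_apply, h1, h2, map_zero, map_zero, add_zero]
  rw [map_mul, map_add, aeval_X, map_one, Module.End.mul_apply, LinearMap.add_apply,
    Module.End.one_apply, map_add] at h3
  exact h3

/-- A kernel vector is determined by two entries. -/
theorem ker_inj {k : ℕ} (hn : n + 1 = 2 * 3 ^ k) (h1 : 1 < n) {x : Fin n → Fin n → ZMod 2}
    (h : Ker n x) (h00 : x ⟨0, by omega⟩ ⟨0, by omega⟩ = 0)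
    (h01 : x ⟨0, by omega⟩ ⟨1, h1⟩ = 0) : x = 0 := by
  have hq := quad hn h
  have hT1 := ker_T1 h
  rw [LinearMap.add_apply, Module.End.one_apply] at hT1
  -- the two components
  set b := T2 n x with hb
  have hTb : T2 n b = b := by
    have h2 := add_self' b
    have : T2 n b = -b := by rw [eq_neg_iff_add_eq_zero]; exact hq
    rw [this]
    exact neg_eq_of_add_eq_zero_left h2
  have hT1b : T1 n b = 0 := by
    rw [hb, T_comm, hT1, map_add, ← hb, hTb]
    exact add_self' b
  have hb00 : b ⟨0, by omega⟩ ⟨0, by omega⟩ = 0 := by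
    rw [hb, T2_apply, T_apply]
    rw [Finset.sum_eq_single (⟨1, h1⟩ : Fin n)]
    · simpa using h01
    · intro j _ hne
      rw [if_neg]
      intro hj
      simp only at hj
      apply hne
      ext
      simp only
      omega
    · intro h
      exact absurd (Finset.mem_univ _) h
  have hb0 : b ⟨0, by omega⟩ = 0 := by
    apply eq_zero_of_first (1 : ZMod 2)
    · rw [one_smul]
      have := congrFun hTb ⟨0, by omega⟩
      rwa [T2_apply] at this
    · intro _
      exact hb00
  have hbz : b = 0 := by
    apply eq_zero_of_first (0 : ZMod 2)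
    · rw [zero_smul]
      exact hT1b
    · intro _
      exact hb0
  rw [hbz, add_zero] at hT1
  apply eq_zero_of_first (1 : ZMod 2)
  · rw [one_smul]
    exact hT1
  · intro _
    apply eq_zero_of_first (0 : ZMod 2)
    · rw [zero_smul]
      have := congrFun hbz ⟨0, by omega⟩
      rw [hb, T2_apply] at this
      exact this
    · intro _
      exact h00

/-! ### Two kernel vectors -/

/-- The indicator of the integers which are not multiples of three. -/
def a3 (k : ℕ) : ZMod 2 := if k % 3 = 0 then 0 else 1

/-- The indicator of the odd numbers. -/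
def a2 (k : ℕ) : ZMod 2 := if k % 2 = 0 then 0 else 1

theorem a3_rec (k : ℕ) : a3 k + a3 (k + 2) = a3 (k + 1) := by
  unfold a3
  have h : k % 3 = 0 ∨ k % 3 = 1 ∨ k % 3 = 2 := by omega
  rcases h with h | h | h
  · rw [if_pos h, if_neg (by omega), if_neg (by omega)]; decide
  · rw [if_neg (by omega), if_pos (by omega), if_neg (by omega)]; decide
  · rw [if_neg (by omega), if_neg (by omega), if_pos (by omega)]; decide

theorem a2_rec (k : ℕ) : a2 k + a2 (k + 2) = 0 := by
  unfold a2
  have h : k % 2 = 0 ∨ k % 2 = 1 := by omega
  rcases h with h | h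
  · rw [if_pos h, if_pos (by omega)]; decide
  · rw [if_neg (by omega), if_neg (by omega)]; decide

theorem ker_X1 (h3 : (n + 1) % 3 = 0) (h2 : (n + 1) % 2 = 0) :
    Ker n (fun i j => a3 (i.val + 1) * a2 (j.val + 1)) := by
  have e1 : T1 n (fun i j => a3 (i.val + 1) * a2 (j.val + 1)) =
      fun i j => a3 (i.val + 1) * a2 (j.val + 1) := by
    ext i j
    have := T_of (n := n) (M := Fin n → ZMod 2) (fun k => fun j => a3 k * a2 (j.val + 1))
      (by ext j; simp [a3]) (by ext j; simp [a3, h3]) i
    have h4 := congrFun this j
    simp only [Pi.add_apply] at h4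
    rw [← add_mul, a3_rec] at h4
    exact h4
  have e2 : T2 n (fun i j => a3 (i.val + 1) * a2 (j.val + 1)) = 0 := by
    ext i j
    rw [T2_apply]
    have := T_of (n := n) (M := ZMod 2) (fun k => a3 (i.val + 1) * a2 k)
      (by simp [a2]) (by simp [a2, h2]) j
    rw [← mul_add, a2_rec, mul_zero] at this
    exact this
  unfold Ker
  rw [e1, e2, add_zero]
  exact add_self' _

theorem ker_X2 (h3 : (n + 1) % 3 = 0) (h2 : (n + 1) % 2 = 0) :
    Ker n (fun i j => a2 (i.val + 1) * a3 (j.val + 1)) := by
  have e1 : T1 n (fun i j => a2 (i.val + 1) * a3 (j.val + 1)) = 0 := by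
    ext i j
    have := T_of (n := n) (M := Fin n → ZMod 2) (fun k => fun j => a2 k * a3 (j.val + 1))
      (by ext j; simp [a2]) (by ext j; simp [a2, h2]) i
    have h4 := congrFun this j
    simp only [Pi.add_apply] at h4
    rw [← add_mul, a2_rec, zero_mul] at h4
    exact h4
  have e2 : T2 n (fun i j => a2 (i.val + 1) * a3 (j.val + 1)) =
      fun i j => a2 (i.val + 1) * a3 (j.val + 1) := by
    ext i j
    rw [T2_apply]
    have := T_of (n := n) (M := ZMod 2) (fun k => a2 (i.val + 1) * a3 k)
      (by simp [a3]) (by simp [a3, h3]) j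
    rw [← mul_add, a3_rec] at this
    exact this
  unfold Ker
  rw [e1, e2, add_zero]
  exact add_self' _

end Pool.Agent.R111.Lights
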