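import Mathlib

/-!
# Fibonacci polynomials over the field with two elements

`f 0 = 0`, `f 1 = 1`, `f (n + 2) = X f (n + 1) + f n`.  For `m` a power of three the polynomials
`f m` and `f m (X + 1)` are coprime.
-/

set_option autoImplicit false

namespace Pool.Agent.R111.Lights

open Polynomial

/-- The Fibonacci polynomials over the field with two elements. -/
noncomputable def f : ℕ → (ZMod 2)[X]
  | 0 => 0
  | 1 => 1
  | n + 2 => X * f (n + 1) + f n

theorem f_zero : f 0 = 0 := by rw [f]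
theorem f_one : f 1 = 1 := by rw [f]
theorem f_add_two (n : ℕ) : f (n + 2) = X * f (n + 1) + f n := by rw [f]

theorem two_eq_zero' : (2 : (ZMod 2)[X]) = 0 := by
  have : (2 : (ZMod 2)[X]) = C (2 : ZMod 2) := (map_ofNat C 2).symm
  rw [this]
  have h : (2 : ZMod 2) = 0 := by decide
  rw [h, C_0]

theorem f_add (m n : ℕ) : f (m + n + 1) = f (m + 1) * f (n + 1) + f m * f n := by
  induction m using Nat.twoStepInduction with
  | zero => simp [f_zero, f_one]
  | one =>
    have : 1 + n + 1 = n + 2 := by omega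
    rw [this, f_add_two, f_add_two, f_one, f_zero]
    ring
  | more m ih1 ih2 =>
    have e1 : m + 2 + n + 1 = (m + n + 1) + 2 := by omega
    have e2 : m + n + 1 + 1 = m + 1 + n + 1 := by omega
    have e3 : f (m + 2 + 1) = X * f (m + 2) + f (m + 1) := f_add_two (m + 1)
    rw [e1, f_add_two, e2, ih2, ih1, e3, f_add_two m]
    ring

theorem f_double (m : ℕ) : f (2 * m) = X * f m ^ 2 := by
  rcases m with _ | m
  · simp [f_zero]
  · have e : 2 * (m + 1) = (m + 1) + m + 1 := by omega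
    rw [e, f_add, f_add_two]
    linear_combination (f (m + 1) * f m) * two_eq_zero'

theorem cassini (m : ℕ) : f (m + 1) ^ 2 + X * f m * f (m + 1) + f m ^ 2 = 1 := by
  induction m with
  | zero => simp [f_zero, f_one]
  | succ m ih =>
    rw [f_add_two]
    linear_combination ih + (X * f (m + 1) * f m + X ^ 2 * f (m + 1) ^ 2) * two_eq_zero'

theorem f_triple (m : ℕ) : f (3 * m) = f m * (X * f m + 1) ^ 2 := by
  rcases m with _ | m
  · simp [f_zero]
  · have e : 3 * (m + 1) = 2 * (m + 1) + m + 1 := by omega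
    have e2 : f (2 * (m + 1) + 1) = f (m + 1 + 1) ^ 2 + f (m + 1) ^ 2 := by
      have : 2 * (m + 1) + 1 = (m + 1) + (m + 1) + 1 := by omega
      rw [this, f_add]; ring
    have hc := cassini (m + 1)
    have h3 : f (m + 1 + 1) = X * f (m + 1) + f m := f_add_two m
    rw [e, f_add, e2, f_double, h3]
    rw [h3] at hc
    linear_combination (f (m + 1)) * hc -
      (f (m + 1) ^ 2 * X + f (m + 1) ^ 3 * X ^ 2) * two_eq_zero'

/-! ### Roots -/

section roots

variable {K : Type*} [Field K] [Algebra (ZMod 2) K]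

theorem two_zero : (2 : K) = 0 := by
  have h : algebraMap (ZMod 2) K 2 = 0 := by
    have : (2 : ZMod 2) = 0 := by decide
    rw [this, map_zero]
  rwa [map_ofNat] at h

theorem mul_aeval_f {z : K} (hz : z ≠ 0) (m : ℕ) :
    (z + z⁻¹) * aeval (z + z⁻¹) (f m) = z ^ m + z⁻¹ ^ m := by
  induction m using Nat.twoStepInduction with
  | zero =>
    rw [f_zero, map_zero, mul_zero, pow_zero, pow_zero, one_add_one_eq_two, two_zero]
  | one => rw [f_one, map_one, mul_one, pow_one, pow_one]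
  | more m ih1 ih2 =>
    rw [f_add_two, map_add, map_mul, aeval_X]
    have h : (z + z⁻¹) * ((z + z⁻¹) * aeval (z + z⁻¹) (f (m + 1)) + aeval (z + z⁻¹) (f m)) =
        (z + z⁻¹) * (z ^ (m + 1) + z⁻¹ ^ (m + 1)) + (z ^ m + z⁻¹ ^ m) := by
      rw [← ih1, ← ih2]; ring
    rw [h]
    have hz1 : z * z⁻¹ = 1 := mul_inv_cancel₀ hz
    have e1 : z * z⁻¹ ^ (m + 1) = z⁻¹ ^ m := by rw [pow_succ]; linear_combination z⁻¹ ^ m * hz1
    have e2 : z⁻¹ * z ^ (m + 1) = z ^ m := by rw [pow_succ]; linear_combination z ^ m * hz1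
    linear_combination e1 + e2 + (z ^ m + z⁻¹ ^ m) * (two_zero (K := K))

theorem lte (r : ℕ) : ∃ v : ℕ, 4 ^ (3 ^ r) = 1 + 3 ^ (r + 1) * (3 * v + 1) := by
  induction r with
  | zero => exact ⟨0, by norm_num⟩
  | succ r ih =>
    obtain ⟨v, hv⟩ := ih
    refine ⟨v + 3 ^ r * (3 * v + 1) ^ 2 + 3 ^ (2 * r) * (3 * v + 1) ^ 3, ?_⟩
    have e : 4 ^ 3 ^ (r + 1) = (4 ^ 3 ^ r) ^ 3 := by rw [pow_succ 3 r, pow_mul]
    rw [e, hv]
    have e2 : 3 ^ (2 * r) = (3 ^ r) ^ 2 := by rw [mul_comm, pow_mul]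
    rw [e2, pow_succ 3 (r + 1), pow_succ 3 r]
    ring

/-- There are no `z`, `w` with `z ^ (3 ^ i)`, `w ^ (3 ^ j)` primitive third roots of unity and
`z + z⁻¹ + w + w⁻¹ = 1`. -/
theorem no_root {z w : K} (hz : z ≠ 0) (hw : w ≠ 0) {i j : ℕ} (hij : j ≤ i)
    (h1 : z ^ 3 ^ i + z⁻¹ ^ 3 ^ i = 1) (h2 : w ^ 3 ^ j + w⁻¹ ^ 3 ^ j = 1)
    (h : z + z⁻¹ + (w + w⁻¹) = 1) : False := by
  have h20 := two_zero (K := K)
  rcases Nat.eq_zero_or_pos i with hi | hi
  · have hj : j = 0 := by omega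
    subst hi hj
    rw [pow_zero, pow_one, pow_one] at h1 h2
    rw [h1, h2] at h
    have : (1 : K) = 0 := by linear_combination h20 - h
    exact one_ne_zero this
  have : CharP K 2 := charP_of_injective_algebraMap (algebraMap (ZMod 2) K).injective 2
  obtain ⟨v, hv⟩ := lte (i - 1)
  have hi1 : i - 1 + 1 = i := by omega
  rw [hi1] at hv
  -- the Frobenius power
  have hfrob : ∀ x y : K, (x + y) ^ 4 ^ 3 ^ (i - 1) = x ^ 4 ^ 3 ^ (i - 1) + y ^ 4 ^ 3 ^ (i - 1) := by
    intro x y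
    have : 4 ^ 3 ^ (i - 1) = 2 ^ (2 * 3 ^ (i - 1)) := by
      rw [pow_mul]; norm_num
    rw [this]
    exact add_pow_char_pow x y 2 _
  -- third roots of unity
  have cube : ∀ {x : K} {k : ℕ}, x ≠ 0 → x ^ 3 ^ k + x⁻¹ ^ 3 ^ k = 1 →
      (x ^ 3 ^ k) ^ 2 + x ^ 3 ^ k + 1 = 0 ∧ (x ^ 3 ^ k) ^ 3 = 1 := by
    intro x k hx hk
    have hx' : x ^ 3 ^ k ≠ 0 := pow_ne_zero _ hx
    have e1 : (x ^ 3 ^ k) ^ 2 + x ^ 3 ^ k + 1 = 0 := by
      have hinv : x ^ 3 ^ k * x⁻¹ ^ 3 ^ k = 1 := by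
        rw [← mul_pow, mul_inv_cancel₀ hx, one_pow]
      linear_combination (x ^ 3 ^ k) * hk - hinv + (x ^ 3 ^ k) * h20
    refine ⟨e1, ?_⟩
    linear_combination (x ^ 3 ^ k - 1) * e1
  obtain ⟨z1, z2⟩ := cube hz h1
  obtain ⟨w1, w2⟩ := cube hw h2
  set Q := 4 ^ 3 ^ (i - 1) with hQ
  set Z := z ^ 3 ^ i with hZ
  have hzQ : z ^ Q = Z * z := by
    rw [hv, pow_add, pow_one, pow_mul, ← hZ, pow_add, pow_mul, z2, one_pow, one_mul, pow_one]
    ring
  have hZQ : Z ^ Q = Z := by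
    have e : 3 ^ i * (3 * v + 1) = 3 * (3 ^ (i - 1) * (3 * v + 1)) := by
      rw [← hi1, pow_succ]; simp; ring
    rw [hv, pow_add, pow_one, e, pow_mul, z2, one_pow, mul_one]
  have hZ0 : Z ≠ 0 := pow_ne_zero _ hz
  have hZ1 : Z ≠ 1 := by
    intro hZ1
    rw [hZ1] at z1
    have : (1 : K) = 0 := by linear_combination z1 - h20
    exact one_ne_zero this
  -- three conjugate relations
  have r1 : Z * z + (Z * z)⁻¹ + (w ^ Q + (w ^ Q)⁻¹) = 1 := by
    have e := congrArg (fun x => x ^ Q) h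
    simp only [one_pow] at e
    rw [hfrob, hfrob, hfrob, inv_pow, inv_pow, hzQ] at e
    exact e
  have r2 : Z * (Z * z) + (Z * (Z * z))⁻¹ + ((w ^ Q) ^ Q + ((w ^ Q) ^ Q)⁻¹) = 1 := by
    have e := congrArg (fun x => x ^ Q) r1
    simp only [one_pow] at e
    rw [hfrob, hfrob, hfrob, inv_pow, inv_pow, mul_pow, hzQ, hZQ] at e
    exact e
  have hinv3 : Z⁻¹ = Z ^ 2 := inv_eq_of_mul_eq_one_right (by rw [← pow_succ']; exact z2)
  rcases Nat.lt_or_ge j i with hlt | hge
  · -- `w` is fixed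
    have hw1 : w ^ 3 ^ i = 1 := by
      obtain ⟨k, hk⟩ : ∃ k, i = j + 1 + k := ⟨i - (j + 1), by omega⟩
      rw [hk, pow_add, pow_add, pow_one, pow_mul, pow_mul, w2, one_pow]
    have hwQ : w ^ Q = w := by
      rw [hv, pow_add, pow_one, pow_mul, hw1, one_pow, mul_one]
    rw [hwQ] at r1 r2
    rw [hwQ] at r2
    have e1 : z + z⁻¹ = 0 := by
      rw [mul_inv, hinv3] at r1
      rw [mul_inv, mul_inv, hinv3] at r2
      have s : (Z ^ 2 + Z + 1) * (z + z⁻¹) = 0 := by rw [z1, zero_mul]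
      have hw3 : w + w⁻¹ = 1 := by
        have z4 : Z ^ 4 = Z := by linear_combination Z * z2
        linear_combination h + r1 + r2 - s - (w + w⁻¹ - 1) * h20 - z⁻¹ * z4
      linear_combination h - hw3
    have e2 : (z + 1) ^ 2 = 0 := by
      have hz1 : z * z⁻¹ = 1 := mul_inv_cancel₀ hz
      linear_combination z * e1 - hz1 + z * h20
    have e3 : z = 1 := by
      have := pow_eq_zero_iff (two_ne_zero) |>.1 e2
      linear_combination this - h20
    apply hZ1
    rw [hZ, e3, one_pow]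
  · have hji : j = i := le_antisymm hij hge
    subst hji
    set W := w ^ 3 ^ j with hW
    have hwQ : w ^ Q = W * w := by
      rw [hv, pow_add, pow_one, pow_mul, ← hW, pow_add, pow_mul, w2, one_pow, one_mul, pow_one]
      ring
    have hWQ : W ^ Q = W := by
      have e : 3 ^ j * (3 * v + 1) = 3 * (3 ^ (j - 1) * (3 * v + 1)) := by
        rw [← hi1, pow_succ]; simp; ring
      rw [hv, pow_add, pow_one, e, pow_mul, w2, one_pow, mul_one]
    have hinv4 : W⁻¹ = W ^ 2 := inv_eq_of_mul_eq_one_right (by rw [← pow_succ']; exact w2)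
    rw [hwQ] at r1 r2
    rw [mul_pow, hWQ, hwQ] at r2
    rw [mul_inv, mul_inv, hinv3, hinv4] at r1
    rw [mul_inv, mul_inv, mul_inv, mul_inv, hinv3, hinv4] at r2
    have s1 : (Z ^ 2 + Z + 1) * (z + z⁻¹) = 0 := by rw [z1, zero_mul]
    have s2 : (W ^ 2 + W + 1) * (w + w⁻¹) = 0 := by rw [w1, zero_mul]
    have z4 : Z ^ 4 = Z := by linear_combination Z * z2
    have w4 : W ^ 4 = W := by linear_combination W * w2
    have : (1 : K) = 0 := by
      linear_combination s1 + s2 + z⁻¹ * z4 + w⁻¹ * w4 - h - r1 - r2 - h20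
    exact one_ne_zero this

end roots

/-- `P k = X f (3 ^ k) + 1`. -/
noncomputable def P (k : ℕ) : (ZMod 2)[X] := X * f (3 ^ k) + 1

theorem exists_joukowski {K : Type*} [Field K] [IsAlgClosed K] (a : K) :
    ∃ z : K, z ≠ 0 ∧ a = z + z⁻¹ := by
  obtain ⟨z, hz⟩ := IsAlgClosed.exists_root (X ^ 2 - C a * X + 1 : K[X]) (by
    have : (X ^ 2 - C a * X + 1 : K[X]).degree = 2 := by
      compute_degree!
    rw [this]; norm_num)
  rw [IsRoot.def] at hz
  simp only [eval_add, eval_sub, eval_pow, eval_X, eval_mul, eval_C, eval_one] at hz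
  have hz0 : z ≠ 0 := by
    rintro rfl
    simp at hz
  refine ⟨z, hz0, ?_⟩
  field_simp
  linear_combination -hz

theorem coprime_P (i j : ℕ) : IsCoprime (P i) ((P j).comp (X + 1)) := by
  rw [Polynomial.isCoprime_iff_aeval_ne_zero_of_isAlgClosed (ZMod 2) (AlgebraicClosure (ZMod 2))]
  intro a
  by_contra hcon
  rw [not_or, not_not, not_not] at hcon
  obtain ⟨h1, h2⟩ := hcon
  rw [aeval_comp, map_add, aeval_X, map_one] at h2
  obtain ⟨z, hz, hza⟩ := exists_joukowski a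
  obtain ⟨w, hw, hwa⟩ := exists_joukowski (a + 1)
  have h20 := two_zero (K := AlgebraicClosure (ZMod 2))
  unfold P at h1 h2
  rw [map_add, map_mul, aeval_X, map_one, hza, mul_aeval_f hz] at h1
  rw [map_add, map_mul, aeval_X, map_one, hwa, mul_aeval_f hw] at h2
  have h1' : z ^ 3 ^ i + z⁻¹ ^ 3 ^ i = 1 := by linear_combination h1 - h20
  have h2' : w ^ 3 ^ j + w⁻¹ ^ 3 ^ j = 1 := by linear_combination h2 - h20
  have h3 : z + z⁻¹ + (w + w⁻¹) = 1 := by
    rw [← hza, ← hwa]; linear_combination a * h20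
  rcases le_total j i with hij | hij
  · exact no_root hz hw hij h1' h2' h3
  · exact no_root hw hz hij h2' h1' (by linear_combination h3)

theorem coprime_f (i j : ℕ) : IsCoprime (f (3 ^ i)) ((f (3 ^ j)).comp (X + 1)) := by
  induction i with
  | zero =>
    rw [pow_zero, f_one]
    exact isCoprime_one_left
  | succ i ih =>
    have e : f (3 ^ (i + 1)) = f (3 ^ i) * P i ^ 2 := by
      rw [pow_succ, mul_comm, f_triple]; rfl
    rw [e]
    apply IsCoprime.mul_left ih
    apply IsCoprime.pow_left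
    clear ih e
    induction j with
    | zero =>
      rw [pow_zero, f_one]
      simp [isCoprime_one_right]
    | succ j ih =>
      have e : f (3 ^ (j + 1)) = f (3 ^ j) * P j ^ 2 := by
        rw [pow_succ, mul_comm, f_triple]; rfl
      rw [e, mul_comp, pow_comp]
      exact IsCoprime.mul_right ih (coprime_P i j).pow_right

/-- The Bezout relation. -/
theorem bezout (k : ℕ) : ∃ α β : (ZMod 2)[X],
    α * f (2 * 3 ^ k) + β * (f (2 * 3 ^ k)).comp (X + 1) = X * (X + 1) := by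
  obtain ⟨a, b, hab⟩ := (coprime_f k k).pow (m := 2) (n := 2)
  refine ⟨a * (X + 1), b * X, ?_⟩
  rw [f_double, mul_comp, pow_comp, X_comp]
  linear_combination X * (X + 1) * hab

end Pool.Agent.R111.Lights
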